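import Mathlib
import Pool.Agent.X255.RH.Main
import Pool.Agent.Y776.AxJ.Fun

/-!
# The modular Schanuel conjecture with derivatives at all roots of almost all integral polynomials

Let `τ_1, …, τ_p` (`p ≥ 1`) be nonconstant analytic functions on a connected open set `U` with values in the upper
half-plane, such that `j(τ_i)` and `j(τ_k)` are algebraically independent over `ℂ` for `i ≠ k`, and let `w_1, …, w_s`
(`s ≥ 0`) be analytic functions on `U` no nontrivial combination of which with integral coefficients is constant. There is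
no other condition on these functions; nothing needs to be algebraic. For instance `p = 1`, `U` is the upper half-plane
and `τ_1(x) = x`, or `j(τ_i)` are algebraic functions.

Let `x` run through all the roots in `U` of an integral polynomial of degree `g`, so through an algebraic number of degree
`g` and all its conjugates (in the part of the plane where the functions are defined). In general the points `τ_i(x)`, for
all `i` and all these `x` together, are not special and pairwise not equivalent, and the modular Schanuel conjecture with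
derivatives and special points predicts, together with Schanuel's conjecture, that at least `3 p + s` times the number of
the roots `x` among the numbers

  `τ_i(x)`, `j(τ_i(x))`, `j'(τ_i(x))`, `j''(τ_i(x))`, `w_k(x)`, `exp(w_k(x))`

are algebraically independent, also if one adds the values `j'(v_1), …, j'(v_q)` at inequivalent special points `v_l`
(where `j'(v_l) ≠ 0`).

We prove: one can choose `3 p + s` of the functions such that for almost all integral polynomials of degree `g` with
coefficients at most `T` their values at ALL the roots in `U` together satisfy no algebraic relation whose degree is at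
most `ω(T)`, over number fields of degree at most `ω(T)` (for instance the splitting field of the polynomial), of height
at most `T ^ ω(T)` and with coefficients formed with `ω(T)` arbitrary given complex numbers, for instance the monomials in
`π` and in the numbers `j'(v_l)`; here `ω(T) → ∞`.

The proof is an application of `Pool.Agent.X255.RH.main_all` (values of algebraically independent functions at the roots
of almost all polynomials) and of `Pool.Agent.Y776.AxJ.exists_loc` (an Ax-Schanuel theorem, relative to arbitrary countable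
fields of constants).
-/

set_option autoImplicit false

open Polynomial Filter Topology NumberField
open Pool.Agent

namespace Pool.Agent.Results.MP_f58a57_nt.AllRootsOfPolynomials

/-! ### The functions -/

/-- The lattice `ℤ + ℤ τ`. -/
noncomputable def lattice (τ : ℂ) (h : 0 < τ.im) : PeriodPair where
  ω₁ := 1
  ω₂ := τ
  indep := (Y685.LL ⟨τ, h⟩).indep

/-- The modular invariant `j = 1728 g₂³ / (g₂³ - 27 g₃²)` on the upper half-plane. -/
noncomputable def j (τ : ℂ) : ℂ :=
  if h : 0 < τ.im then 1728 * (lattice τ h).g₂ ^ 3 / ((lattice τ h).g₂ ^ 3 - 27 * (lattice τ h).g₃ ^ 2) else 0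

/-- The names of the functions. -/
inductive Name (p s : ℕ) : Type
  | tau : Fin p → Name p s
  | j : Fin p → Name p s
  | dj : Fin p → Name p s
  | ddj : Fin p → Name p s
  | w : Fin s → Name p s
  | expw : Fin s → Name p s

/-- The values `τ_i(z)`, `j(τ_i(z))`, `j'(τ_i(z))`, `j''(τ_i(z))` (complex derivatives of `j`), `w_k(z)` and
`exp(w_k(z))`. -/
noncomputable def value {p s : ℕ} (τ : Fin p → ℂ → ℂ) (w : Fin s → ℂ → ℂ) (z : ℂ) : Name p s → ℂ
  | Name.tau i => τ i z
  | Name.j i => j (τ i z)
  | Name.dj i => deriv j (τ i z)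
  | Name.ddj i => deriv (deriv j) (τ i z)
  | Name.w k => w k z
  | Name.expw k => Complex.exp (w k z)

/-- An analytic curve in `ℍ^p × ℂ^s`. -/
structure Curve (U : Set ℂ) {p s : ℕ} (τ : Fin p → ℂ → ℂ) (w : Fin s → ℂ → ℂ) : Prop where
  pos : 0 < p
  isOpen : IsOpen U
  isPreconnected : IsPreconnected U
  nonempty : U.Nonempty
  analytic : ∀ i, AnalyticOnNhd ℂ (τ i) U
  im_pos : ∀ i, ∀ z ∈ U, 0 < (τ i z).im
  nonconstant : ∀ i c, ∃ z ∈ U, τ i z ≠ c
  /-- two of the functions `j(τ_i)` are algebraically independent over `ℂ` -/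
  independent : ∀ i k, i ≠ k → ∀ P : MvPolynomial (Fin 2) ℂ, P ≠ 0 →
    ∃ z ∈ U, MvPolynomial.eval ![j (τ i z), j (τ k z)] P ≠ 0
  analytic_w : ∀ k, AnalyticOnNhd ℂ (w k) U
  /-- no nontrivial combination with integral coefficients of the `w_k` is constant -/
  linear : ∀ (m : Fin s → ℤ) (c : ℂ), (∀ z ∈ U, ∑ k, (m k : ℂ) * w k z = c) → m = 0

/-! ### The polynomials and their roots -/

/-- The integral vectors `a = (a_0, …, a_g)` with `|a_i| ≤ T`. -/
noncomputable def box (g T : ℕ) : Finset (Fin (g + 1) → ℤ) := Fintype.piFinset fun _ => Finset.Icc (-(T : ℤ)) (T : ℤ)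

/-- The polynomial `a_0 + a_1 x + … + a_g x^g`. -/
noncomputable def poly {g : ℕ} (a : Fin (g + 1) → ℤ) : ℂ[X] := ∑ i, C (a i : ℂ) * X ^ (i : ℕ)

/-- The roots of the polynomial in the set `K`. -/
noncomputable def roots {g : ℕ} (K : Set ℂ) (a : Fin (g + 1) → ℤ) : Finset ℂ := by
  classical exact (poly a).roots.toFinset.filter fun z => z ∈ K

/-- `K` is a subset of `U`, and the part of the boundary of `U` near `K` is thin: there are a locally finite set `D` and
`c > 0` such that the distance of a point `z` of `K` from a point outside `U` is at least the distance of `z` from a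
point of `D`, or at least `|im z|`, `z` not real, or at least `c`. This is so for every compact subset `K` of the open
set `U`, and for `K = U` if `U` is the upper half-plane, or if the complement of `U` is locally finite. -/
def Thin (K U : Set ℂ) : Prop :=
  K ⊆ U ∧ ∃ (D : Set ℂ) (c : ℝ), 0 < c ∧ (∀ R : ℝ, (D ∩ Metric.closedBall 0 R).Finite) ∧
    ∀ z ∈ K, ∀ w, w ∉ U → (∃ p ∈ D, ‖z - p‖ ≤ ‖z - w‖) ∨ (z.im ≠ 0 ∧ |z.im| ≤ ‖z - w‖) ∨ c ≤ ‖z - w‖

/-- the compact subsets of an open set -/
theorem thin_of_isCompact {K U : Set ℂ} (hK : IsCompact K) (hU : IsOpen U) (h : K ⊆ U) : Thin K U := by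
  obtain ⟨δ, hδ, hδU⟩ := hK.exists_thickening_subset_open hU h
  refine ⟨h, ∅, δ, hδ, fun R => by simp, fun z hz w hw => Or.inr (Or.inr ?_)⟩
  by_contra hlt
  push Not at hlt
  apply hw
  apply hδU
  rw [Metric.mem_thickening_iff]
  refine ⟨z, hz, ?_⟩
  rw [dist_comm, dist_eq_norm]
  exact hlt

/-- The numbers `x q` satisfy no relation of degree at most `k` in each of them with coefficients `∑_{b < k} ξ_b c_b`, where the `c_b` are
integers of a number field of degree at most `k` all of whose conjugates are at most `T ^ k`, except the relations all of whose coefficients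
vanish. -/
def NoRelation {Q : Type} [Fintype Q] [DecidableEq Q] (ξ : ℕ → ℂ) (k : ℕ) (T : ℝ) (x : Q → ℂ) : Prop :=
  ∀ (F : Type) [Field F] [NumberField F], Module.finrank ℚ F ≤ k → ∀ (io : F →+* ℂ)
    (c : (Q → Fin (k + 1)) → Fin k → 𝓞 F), (∀ l b (φ : F →+* ℂ), ‖φ (c l b : F)‖ ≤ T ^ k) →
    ∑ l, (∑ b : Fin k, ξ b * io (c l b : F)) * ∏ q, x q ^ (l q : ℕ) = 0 → ∀ l, ∑ b : Fin k, ξ b * io (c l b : F) = 0

/-- The polynomial with the coefficients `a` has degree `g` and simple roots, and there is no relation between the values of the chosen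
functions at all its roots in `K` together. -/
def Good {g p s n : ℕ} (K : Set ℂ) (τ : Fin p → ℂ → ℂ) (w : Fin s → ℂ → ℂ) (e : Fin n → Name p s) (ξ : ℕ → ℂ) (k : ℕ)
    (T : ℝ) (a : Fin (g + 1) → ℤ) : Prop :=
  a (Fin.last g) ≠ 0 ∧ (poly a).Separable ∧
    NoRelation ξ k T fun v : {x // x ∈ roots K a} × Fin n => value τ w v.1 (e v.2)

theorem j_eq {τ : ℂ} (h : 0 < τ.im) : j τ = Y776.jf τ := by
  have h1 : Y685.LC τ = lattice τ h := by
    rw [Y685.LC, UpperHalfPlane.ofComplex_apply_of_im_pos h]
    rfl
  rw [j, dif_pos h, Y776.jf, h1]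

theorem j_ev {τ : ℂ} (h : 0 < τ.im) : j =ᶠ[nhds τ] Y776.jf := by
  filter_upwards [Y776.AxJ.isOpen_H.mem_nhds h] with σ hσ
  exact j_eq hσ

theorem dj_eq {τ : ℂ} (h : 0 < τ.im) : deriv j τ = deriv Y776.jf τ := (j_ev h).deriv_eq

theorem dj_ev {τ : ℂ} (h : 0 < τ.im) : deriv j =ᶠ[nhds τ] deriv Y776.jf := by
  filter_upwards [Y776.AxJ.isOpen_H.mem_nhds h] with σ hσ
  exact dj_eq hσ

theorem ddj_eq {τ : ℂ} (h : 0 < τ.im) : deriv (deriv j) τ = deriv (deriv Y776.jf) τ := (dj_ev h).deriv_eq

theorem fmj {U : Set ℂ} {p s : ℕ} {τ : Fin p → ℂ → ℂ} {w : Fin s → ℂ → ℂ} (h : Curve U τ w) :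
    Y776.AxJ.Fmj U τ w where
  op := h.isOpen
  conn := h.isPreconnected
  ne := h.nonempty
  ta := h.analytic
  im := h.im_pos
  nc := h.nonconstant
  ji := by
    intro i k hik P hP
    by_contra hne
    obtain ⟨z, hz, hz0⟩ := h.independent i k hik P hne
    apply hz0
    rw [← hP z hz]
    congr 2
    funext m
    fin_cases m
    · exact j_eq (h.im_pos i z hz)
    · exact j_eq (h.im_pos k z hz)
  wa := h.analytic_w
  wi := h.linear

/-- the name of a function -/
def nm {p s : ℕ} : Y776.AxJ.Nj p s → Name p s := fun o => match o with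
  | Sum.inl (i, 0) => Name.tau i
  | Sum.inl (i, 1) => Name.j i
  | Sum.inl (i, 2) => Name.dj i
  | Sum.inl (i, 3) => Name.ddj i
  | Sum.inr (Sum.inl k) => Name.w k
  | Sum.inr (Sum.inr k) => Name.expw k

/-- the function with a given name -/
def mn {p s : ℕ} : Name p s → Y776.AxJ.Nj p s := fun o => match o with
  | Name.tau i => Sum.inl (i, 0)
  | Name.j i => Sum.inl (i, 1)
  | Name.dj i => Sum.inl (i, 2)
  | Name.ddj i => Sum.inl (i, 3)
  | Name.w k => Sum.inr (Sum.inl k)
  | Name.expw k => Sum.inr (Sum.inr k)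

theorem nm_inj {p s : ℕ} : Function.Injective (nm (p := p) (s := s)) := by
  have h : Function.LeftInverse (mn (p := p) (s := s)) nm := by
    rintro (⟨i, m⟩ | k | k)
    · fin_cases m <;> rfl
    · rfl
    · rfl
  exact h.injective

theorem value_eq {U : Set ℂ} {p s : ℕ} {τ : Fin p → ℂ → ℂ} {w : Fin s → ℂ → ℂ} (h : Curve U τ w) {z : ℂ}
    (hz : z ∈ U) (o : Y776.AxJ.Nj p s) : value τ w z (nm o) = Y776.AxJ.yj τ w o z := by
  rcases o with ⟨i, m⟩ | k | k
  · fin_cases m
    · rfl
    · exact j_eq (h.im_pos i z hz)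
    · exact dj_eq (h.im_pos i z hz)
    · exact ddj_eq (h.im_pos i z hz)
  · rfl
  · rfl

theorem roots_sub {g : ℕ} {K : Set ℂ} {a : Fin (g + 1) → ℤ} {x : ℂ} (hx : x ∈ roots K a) : x ∈ K := by
  classical
  unfold roots at hx
  exact (Finset.mem_filter.1 hx).2

open scoped Classical in
/-- **All conjugates of almost all algebraic numbers.** For every curve one can choose `3 p + s` different functions among the `4 p + 2 s`
functions such that for every `g ≥ 1`, all complex numbers `ξ_0, ξ_1, …` and every sequence of sets `K_0, K_1, …` with `Thin (K_k) U` (for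
instance compact subsets of `U`, or `K_k = U` if `U` is the upper half-plane) there is a function `ω(T) → ∞` such that among the
`(2 T + 1)^(g + 1)` integral polynomials of degree at most `g` with coefficients at most `T` at most the proportion `1 / ω(T)` is not good,
the roots in `K_(ω(T))` being considered. -/
theorem result {U : Set ℂ} {p s : ℕ} {τ : Fin p → ℂ → ℂ} {w : Fin s → ℂ → ℂ} (hU : Curve U τ w) :
    ∃ e : Fin (3 * p + s) → Name p s, Function.Injective e ∧
      ∀ (g : ℕ), 0 < g → ∀ (K : ℕ → Set ℂ), (∀ k, Thin (K k) U) → ∀ ξ : ℕ → ℂ,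
      ∃ ω : ℕ → ℕ, Tendsto ω atTop atTop ∧ Monotone ω ∧ ∀ T : ℕ,
        ω T * ((box g T).filter fun a => ¬ Good (K (ω T)) τ w e ξ (ω T) T a).card ≤ (box g T).card := by
  obtain ⟨e, he, hL⟩ := Y776.AxJ.exists_loc (fmj hU) hU.pos
  refine ⟨fun k => nm (e k), nm_inj.comp he, fun g hg K hK ξ => ?_⟩
  have hind : Pool.Agent.X255.RH.Indep U (fun k => Y776.AxJ.yj τ w (e k)) := by
    obtain ⟨z₀, hz₀⟩ := hU.nonempty
    refine Pool.Agent.X255.RH.indep_of_aindepS fun P hP => ?_
    refine hL z₀ hz₀ P ?_
    filter_upwards [hU.isOpen.mem_nhds hz₀] with z hz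
    exact hP z hz
  obtain ⟨ω, h1, h2, h3⟩ := Pool.Agent.X255.RH.main_all (g := g) hg hU.isPreconnected hU.isOpen K
    (fun k => (hK k).2) (fun k => Y776.AxJ.yj_an (fmj hU) (e k)) hind ξ
  refine ⟨ω, h1, h2, fun T => ?_⟩
  refine le_trans (Nat.mul_le_mul_left _ (Finset.card_le_card ?_)) (h3 T)
  intro a ha
  rw [Finset.mem_filter] at ha ⊢
  refine ⟨ha.1, fun hgood => ha.2 ⟨hgood.1, hgood.2.1, ?_⟩⟩
  have hv : (fun v : {x // x ∈ roots (K (ω T)) a} × Fin (3 * p + s) => value τ w v.1 (nm (e v.2))) =
      fun v : {x // x ∈ roots (K (ω T)) a} × Fin (3 * p + s) => Y776.AxJ.yj τ w (e v.2) v.1 := by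
    funext v
    exact value_eq hU ((hK _).1 (roots_sub v.1.2)) _
  have h4 := hgood.2.2
  unfold NoRelation
  rw [hv]
  exact h4

end Pool.Agent.Results.MP_f58a57_nt.AllRootsOfPolynomials
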