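import Pool.Agent.Results.MP_f58a57_nt.StarshapedSequences

/-!
# Modular invariants near the values of generic systems of linear forms

Let `v_a`, `a` in a countable set, be vectors in `ℝ^r`, `O(X^(τ + ε))` of them of norm at most `X` for every `ε > 0`: for
instance the vectors `(b_1^(m_1), …, b_r^(m_r))`, `b_j > 1`, for all `m_1, …, m_r`, with `τ = 0`, or `(1, m, …, m^D)` with
`τ = 1 / D`.

For all `q`, `k ≥ 1`, `d`, `δ` there is `η > 0` such that for all complex numbers `w_1, …, w_q`, all such `v` and `θ < 1` the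
following holds for all real matrices `α` with `k` rows and `r` columns outside a set of Hausdorff dimension at most
`k (r - 1) + (k - η + τ) / (1 - θ)` and all `c`: for all but finitely many `a`, for ALL integer vectors `x` with
`‖x - α v_a‖ ≤ c ‖v_a‖ ^ θ` (maximum norm) and ALL integers `a_i ≠ 0`, `b_i` of absolute value at most `‖x‖ ^ η`, for all points
`z_i` of the upper half-plane with `j(z_i) = a_i x_i + b_i`, every relation of degree at most `δ` between `z_i`, `j'(z_i)`,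
`j''(z_i)` with coefficients which are polynomials in `2 π i, w_1, …, w_q` over a number field of degree at most `d` is
trivial. With `w_l = j'(τ_l)`, `τ_l` special, this is the bound `3 m_1 + m_2` of the modular Schanuel conjecture with
derivatives for relations of degree `≤ δ`.

For instance: for almost all pairs `α_1`, `α_2` there are no such relations of degree `≤ δ` for the points `z` with `j(z)` equal
to the integer part of `α_1 2^m + α_2 3^n`, for all but finitely many `(m, n)`.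

Proof. The starting theorem `AlgebraicInvariants` of this problem bounds the number of the exceptional tuples of integers by
`C T^(k - c)`; so there are also few integer vectors for which some `(a_i x_i + b_i)` is exceptional. For each `a` the set of
the `α` with such a vector near `α v_a` is contained in few neighbourhoods of parallel affine subspaces, which are covered by
small cubes (`Pool.Agent.N251.LF`).
-/

set_option autoImplicit false

open MeasureTheory

namespace Pool.Agent.Results.MP_f58a57_nt.GenericLinearForms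

open Pool.Agent.V8H1.TR (linear_near)
open Pool.Agent.Results.MP_f58a57_nt.AlgebraicInvariants (Exceptional)
open Pool.Agent.Results.MP_f58a57_nt.StarshapedSequences (few)

/-- the family `v` of vectors has at most `C X ^ (τ + ε)` members of norm at most `X` -/
def Fam {r : ℕ} {ι : Type} (v : ι → Fin r → ℝ) (τ : ℝ) : Prop :=
  ∀ ε : ℝ, 0 < ε → ∃ C : ℝ, ∀ X : ℝ, 1 ≤ X →
    {a | ‖v a‖ ≤ X}.Finite ∧ (({a | ‖v a‖ ≤ X}.ncard : ℕ) : ℝ) ≤ C * X ^ (τ + ε)

/-- for all but finitely many members `y` of the family `v`, all integer vectors `x` within `c ‖y‖ ^ θ` of `α y` and all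
integers `a_i ≠ 0`, `b_i` of absolute value at most `‖x‖ ^ η`, the tuple `(a_i x_i + b_i)` is not exceptional -/
def Good {q k r : ℕ} {ι : Type} (v : ι → Fin r → ℝ) (δ d : ℕ) (w : Fin q → ℂ) (η θ c : ℝ) (α : Fin k × Fin r → ℝ) :
    Prop :=
  {i | ¬ ∀ x : Fin k → ℤ, (∀ l, |(x l : ℝ) - ∑ j, α (l, j) * v i j| ≤ c * ‖v i‖ ^ θ) →
    ∀ a b : Fin k → ℤ, (∀ l, a l ≠ 0 ∧ |(a l : ℝ)| ≤ ‖x‖ ^ η ∧ |(b l : ℝ)| ≤ ‖x‖ ^ η) →
      ¬ Exceptional δ d w (fun l => (a l : ℂ) * (x l : ℂ) + (b l : ℂ))}.Finite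

theorem main (q k d δ : ℕ) (hk : 1 ≤ k) :
    ∃ η : ℝ, 0 < η ∧ ∀ (w : Fin q → ℂ) (ι : Type) (r : ℕ) (v : ι → Fin r → ℝ) (τ θ : ℝ), Fam v τ → 0 ≤ τ → θ < 1 →
      ∃ S : Set (Fin k × Fin r → ℝ),
        dimH S ≤ ENNReal.ofReal ((k : ℝ) * ((r : ℝ) - 1) + ((k : ℝ) - η + τ) / (1 - θ)) ∧
        ∀ α, α ∉ S → ∀ c : ℝ, Good v δ d w η θ c α := by
  obtain ⟨c, hc, C, h⟩ := few q k d δ
  obtain ⟨η, hη, hnear⟩ := linear_near hk hc
  refine ⟨η, hη, fun w ι r v τ θ hv hτ hθ => ?_⟩
  obtain ⟨S, hS, hS2⟩ := hnear {α : Fin k → ℤ | Exceptional δ d w (fun i => ((α i : ℤ) : ℂ))} C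
    (h w) ι r v τ θ hv hτ hθ
  refine ⟨S, hS, fun α hα c₁ => (hS2 α hα c₁).subset ?_⟩
  intro i hi hcon
  apply hi
  intro x hx a b hab hexc
  refine hcon x hx a b hab ?_
  simpa only [Set.mem_ofPred_eq, Int.cast_add, Int.cast_mul] using hexc

/-- **Theorem.** Let `k ≥ 1`. (1) For all `q`, `d`, `δ` there is `η > 0` such that for all complex numbers `w_1, …, w_q`, all
families `v` of vectors in `ℝ^r` of exponent `τ ≥ 0` (`Fam`) and `θ < 1` there is a set `S` of Hausdorff dimension at most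
`k (r - 1) + (k - η + τ) / (1 - θ)` such that for all real matrices `α` outside `S` with `k` rows and `r` columns and all `c`,
for all but finitely many members `y` of the family, all integer vectors `x` with `‖x - α y‖ ≤ c ‖y‖ ^ θ`, and all integers
`a_i ≠ 0`, `b_i` with `|a_i|, |b_i| ≤ ‖x‖ ^ η`, the tuple `(a_i x_i + b_i)` is not exceptional. (2) If `v` has exponent `0`,
`r ≥ 1`, then for every sequence `w` of complex numbers, for almost all `α` this holds for ALL `q`, `d`, `δ` with some `η > 0`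
for `w_1, …, w_q`, `θ = 0` and all `c`. (3) The vectors `(1, m, …, m^D)` are a family of exponent `1 / D`, the
`(b_1^(m_1), …, b_r^(m_r))` with `b_j > 1` one of exponent `0`, and the `(m_1^(e_1), …, m_r^(e_r))` with `e_j > 0` one of
exponent `∑ 1 / e_j`. -/
theorem result (k : ℕ) (hk : 1 ≤ k) :
    (∀ q d δ : ℕ, ∃ η : ℝ, 0 < η ∧ ∀ (w : Fin q → ℂ) (ι : Type) (r : ℕ) (v : ι → Fin r → ℝ) (τ θ : ℝ),
      Fam v τ → 0 ≤ τ → θ < 1 → ∃ S : Set (Fin k × Fin r → ℝ),
        dimH S ≤ ENNReal.ofReal ((k : ℝ) * ((r : ℝ) - 1) + ((k : ℝ) - η + τ) / (1 - θ)) ∧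
        ∀ α, α ∉ S → ∀ c : ℝ, Good v δ d w η θ c α) ∧
    (∀ (w : ℕ → ℂ) (ι : Type) (r : ℕ) (v : ι → Fin r → ℝ), 1 ≤ r → Fam v 0 → ∀ᵐ α : Fin k × Fin r → ℝ,
      ∀ q d δ : ℕ, ∃ η : ℝ, 0 < η ∧ ∀ c : ℝ, Good v δ d (fun l : Fin q => w l) η 0 c α) ∧
    (∀ D : ℕ, 1 ≤ D → Fam (fun (m : ℕ) (j : Fin (D + 1)) => (m : ℝ) ^ (j : ℕ)) (1 / D)) ∧
    (∀ (r : ℕ) (b : Fin r → ℝ), (∀ j, 1 < b j) → Fam (fun (m : Fin r → ℕ) (j : Fin r) => b j ^ m j) 0) ∧
    (∀ (r : ℕ) (e : Fin r → ℝ), (∀ j, 0 < e j) →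
      Fam (fun (m : Fin r → ℕ) (j : Fin r) => (m j : ℝ) ^ e j) (∑ j, 1 / e j)) := by
  refine ⟨fun q d δ => main q k d δ hk, fun w ι r v hr hv => ?_, Pool.Agent.N251.LF.examples.1,
    Pool.Agent.N251.LF.examples.2.1, Pool.Agent.N251.LF.examples.2.2.1⟩
  have hk0 : (0 : ℝ) < k := by exact_mod_cast hk
  have key : ∀ t : ℕ × ℕ × ℕ, ∀ᵐ α : Fin k × Fin r → ℝ,
      ∃ η : ℝ, 0 < η ∧ ∀ c : ℝ, Good v t.2.2 t.2.1 (fun l : Fin t.1 => w l) η 0 c α := by
    rintro ⟨q, d, δ⟩
    obtain ⟨η, hη, h⟩ := main q k d δ hk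
    obtain ⟨S, hS, hS2⟩ := h (fun l : Fin q => w l) ι r v 0 0 hv le_rfl one_pos
    have h0 : volume S = 0 := by
      refine Pool.Agent.N251.LF.null_of_dim hS ?_ ?_
      · rw [Fintype.card_prod, Fintype.card_fin, Fintype.card_fin, sub_zero, div_one, add_zero]
        push_cast
        nlinarith
      · rw [Fintype.card_prod, Fintype.card_fin, Fintype.card_fin]
        positivity
    have h3 : ∀ᵐ α : Fin k × Fin r → ℝ, α ∉ S := by
      rw [ae_iff]
      simpa using h0
    filter_upwards [h3] with α hα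
    exact ⟨η, hη, fun c => hS2 α hα c⟩
  filter_upwards [ae_all_iff.2 key] with α hα q d δ
  exact hα (q, d, δ)

end Pool.Agent.Results.MP_f58a57_nt.GenericLinearForms
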