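import Pool.Agent.V8H73.RN.Ind
import Pool.Agent.V8H73.RN.UniM
import Pool.Agent.Results.MP_f58a57_nt.AllConjugates

/-!
# The modular Schanuel conjecture with derivatives: random algebraic invariants in random number fields, with conjugates

Let `k = ℚ(z)` be a number field of degree `g`, `x_1, …, x_p` and `y_1, …, y_s` elements of `k`, and let `τ_i` be points of
the upper half-plane with `j(τ_i) = x_i` and `w_k` complex numbers with `exp(w_k) = y_k`. For every embedding `φ` of `k` in
the complex numbers there are such numbers for the conjugates `φ x_i`, `φ y_k`. In general the `g p` points for all the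
embeddings are not special and pairwise inequivalent; since their invariants are algebraic, the modular Schanuel
conjecture with derivatives predicts that the `3 g p` numbers `τ_i`, `j'(τ_i)`, `j''(τ_i)` for ALL the embeddings are
algebraically independent (together with Schanuel's conjecture and the period conjecture: the `(3 p + s) g` numbers
`τ_i`, `j'(τ_i)`, `j''(τ_i)`, `w_k`), also if one adds the values `j'(v_l)` at inequivalent special points.

We choose at random an integral polynomial of degree `g` with a root `z`, and the elements `x_i, y_k` of `k = ℚ(z)`, that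
is, their coordinates in the basis `1, z, …, z^(g-1)` (rational numbers with a common denominator), all integers
bounded by `T`. We prove that with a proportion of exceptions at most `1 / ω(T)` the `3 p + s` numbers `τ_i`, `j'(τ_i)`,
`j''(τ_i)`, `w_k` at ALL the roots together satisfy no algebraic relation of degree at most `ω(T)`, over number fields of
degree at most `ω(T)`, of height at most `T ^ ω(T)`, relative to `ω(T)` arbitrary complex numbers (for instance the
monomials in `π` and in the `j'(v_l)`), where `ω(T) → ∞`. The `τ_i` and `w_k` are given by analytic branches of the inverse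
functions on any connected open set `U` of the space of the data `(x, y)`, and the roots (embeddings) are considered for
which the data are in a closed subset `K_(ω(T))` of `U`.

The starting theorem `AlgebraicInvariants` treats tuples of algebraic integers whose invariants are chosen
independently of each other (its exceptional set may contain all tuples of conjugates, which are a very thin subset);
`AllConjugates` treats a fixed number field and does not apply to several algebraic invariants, since the functions
`j(τ_i)` are not independent on lines. Here the independence of the functions is deduced from the theorem on the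
modular function in several variables after an exponential change of the coordinates.
-/

set_option autoImplicit false

open Polynomial Filter Topology NumberField
open Pool.Agent.Results.MP_f58a57_nt.AllConjugates (j)

namespace Pool.Agent.Results.MP_f58a57_nt.RandomInvariants

/-- Analytic branches on a connected open set `U` of the space with the coordinates `x_i`, `y_k`: points `τ_i` of the
upper half-plane with `j(τ_i) = x_i`, and `w_k` with `exp(w_k) = y_k`. -/
structure Branches {p s : ℕ} (U : Set (Fin p ⊕ Fin s → ℂ)) (τ : Fin p → (Fin p ⊕ Fin s → ℂ) → ℂ)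
    (w : Fin s → (Fin p ⊕ Fin s → ℂ) → ℂ) : Prop where
  isOpen : IsOpen U
  isPreconnected : IsPreconnected U
  nonempty : U.Nonempty
  analytic : ∀ i, AnalyticOnNhd ℂ (τ i) U
  im_pos : ∀ i, ∀ x ∈ U, 0 < (τ i x).im
  j : ∀ i, ∀ x ∈ U, j (τ i x) = x (Sum.inl i)
  analytic_w : ∀ k, AnalyticOnNhd ℂ (w k) U
  exp : ∀ k, ∀ x ∈ U, Complex.exp (w k x) = x (Sum.inr k)

/-- The `3 p + s` functions `τ_i`, `j'(τ_i)`, `j''(τ_i)`, `w_k`. -/
noncomputable def value {p s : ℕ} (τ : Fin p → (Fin p ⊕ Fin s → ℂ) → ℂ) (w : Fin s → (Fin p ⊕ Fin s → ℂ) → ℂ) :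
    (Fin p × Fin 3) ⊕ Fin s → (Fin p ⊕ Fin s → ℂ) → ℂ :=
  Sum.elim (fun q x => ![τ q.1 x, deriv j (τ q.1 x), deriv (deriv j) (τ q.1 x)] q.2) w

/-! ### The random number fields and their elements -/

/-- The indices of the random integers: the coefficients `a_0, …, a_g` of the polynomial, the common denominator, and
the numerators of the coordinates of the `x_j`, `j` in `X`, in the basis `1, z, …, z^(g-1)`. -/
abbrev Index (g : ℕ) (X : Type) : Type := Fin (g + 1) ⊕ Option (X × Fin g)

/-- the integral vectors bounded by `T` -/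
noncomputable def box (g : ℕ) (X : Type) [Fintype X] [DecidableEq X] (T : ℕ) : Finset (Index g X → ℤ) :=
  Fintype.piFinset fun _ => Finset.Icc (-(T : ℤ)) T

/-- the polynomial `a_0 + a_1 x + … + a_g x^g` -/
noncomputable def poly {g : ℕ} {X : Type} (n : Index g X → ℤ) : ℂ[X] :=
  ∑ i : Fin (g + 1), C ((n (Sum.inl i) : ℤ) : ℂ) * Polynomial.X ^ (i : ℕ)

/-- the denominator -/
def denominator {g : ℕ} {X : Type} (n : Index g X → ℤ) : ℤ := n (Sum.inr none)

/-- the point `(x_j)` of `ℂ^X` for the root `z` of the polynomial (the embedding of the number field given by `z`) -/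
noncomputable def point {g : ℕ} {X : Type} (n : Index g X → ℤ) (z : ℂ) : X → ℂ :=
  fun j => ∑ l : Fin g, ((n (Sum.inr (some (j, l))) : ℤ) : ℂ) / ((denominator n : ℤ) : ℂ) * z ^ (l : ℕ)

/-- the roots (embeddings) for which the point is in the set `K` -/
noncomputable def roots {g : ℕ} {X : Type} (K : Set (X → ℂ)) (n : Index g X → ℤ) : Finset ℂ := by
  classical exact (poly n).roots.toFinset.filter fun z => point n z ∈ K

/-- The numbers `x q` satisfy no nonzero polynomial relation `R` of degree at most `k` in each of them with coefficients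
`∑_{b < k} ξ_b c_b`, where the `c_b` are integers of a number field of degree at most `k` all of whose conjugates are at
most `T ^ k`. -/
def NoRelation {Q : Type} (ξ : ℕ → ℂ) (k : ℕ) (T : ℝ) (x : Q → ℂ) : Prop :=
  ∀ (F : Type) [Field F] [NumberField F], Module.finrank ℚ F ≤ k → ∀ (io : F →+* ℂ) (R : MvPolynomial Q ℂ),
    (∀ y, R.degreeOf y ≤ k) →
    (∀ m, ∃ c : Fin k → 𝓞 F, (∀ b (φ : F →+* ℂ), ‖φ (c b : F)‖ ≤ T ^ k) ∧ R.coeff m = ∑ b : Fin k, ξ b * io (c b : F)) →
    MvPolynomial.eval x R = 0 → R = 0

/-- The polynomial has degree `g` and simple roots, the denominator is not zero, and there is no relation between the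
values of the `3 p + s` functions at the points for ALL the roots with points in `K` together. -/
def Good {g p s : ℕ} (K : Set (Fin p ⊕ Fin s → ℂ)) (τ : Fin p → (Fin p ⊕ Fin s → ℂ) → ℂ)
    (w : Fin s → (Fin p ⊕ Fin s → ℂ) → ℂ) (ξ : ℕ → ℂ) (k : ℕ) (T : ℝ) (n : Index g (Fin p ⊕ Fin s) → ℤ) : Prop :=
  n (Sum.inl (Fin.last g)) ≠ 0 ∧ (poly n).Separable ∧ denominator n ≠ 0 ∧
    NoRelation ξ k T fun q : {z // z ∈ roots K n} × ((Fin p × Fin 3) ⊕ Fin s) => value τ w q.2 (point n q.1)

variable {p s : ℕ} {U : Set (Fin p ⊕ Fin s → ℂ)} {τ : Fin p → (Fin p ⊕ Fin s → ℂ) → ℂ}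
  {w : Fin s → (Fin p ⊕ Fin s → ℂ) → ℂ}

theorem Branches.br (h : Branches U τ w) : Pool.Agent.V8H73.RN.BrM U τ w where
  isOpen := h.isOpen
  isPreconnected := h.isPreconnected
  nonempty := h.nonempty
  analytic := h.analytic
  im_pos := h.im_pos
  j := fun i x hx => by rw [← AllConjugates.j_eq (h.im_pos i x hx), h.j i x hx]
  analytic_w := h.analytic_w
  exp := h.exp

theorem Branches.value_eq (h : Branches U τ w) (i : (Fin p × Fin 3) ⊕ Fin s) {x : Fin p ⊕ Fin s → ℂ} (hx : x ∈ U) :
    Pool.Agent.V8H73.RN.vm τ w i x = value τ w i x := by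
  rcases i with ⟨i, m⟩ | k
  · fin_cases m
    · rfl
    · exact (AllConjugates.dj_eq (h.im_pos i x hx)).symm
    · exact (AllConjugates.ddj_eq (h.im_pos i x hx)).symm
  · rfl

open scoped Classical in
/-- **Random algebraic invariants in random number fields, all conjugates together.** For all branches on `U`, every
degree `g ≥ 1`, all closed sets `K_0, K_1, …` contained in `U` and all complex numbers `ξ_0, ξ_1, …` there is a function
`ω(T) → ∞` such that among all integral vectors bounded by `T` (a polynomial `f` of degree `g` and elements `x_i`, `y_k` of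
`ℚ[x]/(f)`) at most the proportion `1 / ω(T)` is not good, the roots with points in `K_(ω(T))` being considered. -/
theorem result (hp : 0 < p) (h : Branches U τ w) (g : ℕ) (hg : 0 < g) (K : ℕ → Set (Fin p ⊕ Fin s → ℂ))
    (hK : ∀ k, IsClosed (K k) ∧ K k ⊆ U) (ξ : ℕ → ℂ) :
    ∃ ω : ℕ → ℕ, Tendsto ω atTop atTop ∧ Monotone ω ∧ ∀ T : ℕ,
      ω T * ((box g (Fin p ⊕ Fin s) T).filter fun n => ¬ Good (K (ω T)) τ w ξ (ω T) T n).card ≤
        (box g (Fin p ⊕ Fin s) T).card := by
  obtain ⟨ω, h1, h2, h3⟩ := Pool.Agent.V8H73.RN.main_ind (g := g) hg h.isPreconnected h.isOpen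
    h.br.vm_an (h.br.ind hp) K hK ξ
  refine ⟨ω, h1, h2, fun T => le_trans (Nat.mul_le_mul_left _ (Finset.card_le_card fun n hn => ?_)) (h3 T)⟩
  rw [Finset.mem_filter] at hn ⊢
  refine ⟨hn.1, fun hno => hn.2 ?_⟩
  obtain ⟨k1, k2, k3, k4⟩ := hno
  refine ⟨k1, k2, k3, ?_⟩
  have hv : (fun q : {z // z ∈ roots (K (ω T)) n} × ((Fin p × Fin 3) ⊕ Fin s) => value τ w q.2 (point n q.1)) =
      fun q : {z // z ∈ Pool.Agent.V8H73.RN.rtI (K (ω T)) n} × ((Fin p × Fin 3) ⊕ Fin s) =>
        Pool.Agent.V8H73.RN.vm τ w q.2 (Pool.Agent.V8H73.RN.ptY q.1 (Pool.Agent.V8H73.RN.betaC n)) := by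
    funext q
    refine (h.value_eq q.2 ?_).symm
    have h5 : (q.1 : ℂ) ∈ roots (K (ω T)) n := q.1.2
    unfold roots at h5
    rw [Finset.mem_filter] at h5
    exact (hK _).2 h5.2
  rw [hv]
  exact k4

end Pool.Agent.Results.MP_f58a57_nt.RandomInvariants
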