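import Pool.Agent.V8H1.TR.Near
import Pool.Agent.N251.LF.Fields
import Pool.Agent.Results.MP_f58a57_nt.MultiplicativeValues

/-!
# Modular invariants near powers, orbits and other sequences of points

Let `f_n`, `n = 0, 1, 2, …`, be positive functions on `(b, ∞)`, `b ≥ 0`, such that `f_n(t) / t` is nondecreasing, and such that
the sequence `f_n(t)` has exponent of convergence at most `τ` for each `t > b`: for instance `f_n(t) = t ^ (v_n)` for exponents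
`v_n ≥ 1` (`τ = 0`; all powers, the powers `t ^ (3 ^ n)` of Mills, …), the orbits `f_n(t) = g (g (⋯ g (t)))` of any map `g` with
`g(t) > t` and `g(t) / t` nondecreasing (`τ = 0`; for instance of `t² + c`), and `f_n(t) = v_n t`.

For all `q`, `k ≥ 1`, `d`, `δ` there is `η > 0` such that for all complex numbers `w_1, …, w_q`, all such `f` and `θ < 1` the
following holds for all `u ∈ ℝ^k`, `‖u‖ > b` (maximum norm), outside a set of Hausdorff dimension at most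
`(k - η + τ) / (1 - θ)`, and all `c`: for all large `n`, ALL integer vectors `v` with `‖v - f_n(‖u‖) u / ‖u‖‖ ≤ c f_n(‖u‖) ^ θ`
and ALL integers `a_i ≠ 0`, `b_i` of absolute value at most `‖v‖ ^ η`, for all points `z_i` of the upper half-plane with
`j(z_i) = a_i v_i + b_i`, every relation of degree at most `δ` between `z_i`, `j'(z_i)`, `j''(z_i)` with coefficients which are
polynomials in `2 π i, w_1, …, w_q` over a number field of degree at most `d` is trivial. With `w_l = j'(τ_l)`, `τ_l` special,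
this is the bound `3 m_1 + m_2` of the modular Schanuel conjecture with derivatives for relations of degree `≤ δ`.

For instance, for almost all `x > 1` there are no such relations of degree `≤ δ` for the points `z` with `j(z)` equal to the
integer part of `x ^ n`, for all large `n`.

Proof. The starting theorem `AlgebraicInvariants` of this problem bounds the number of the exceptional tuples of integers by
`C T^(k - c)`; so there are also few integer vectors for which some `(a_i v_i + b_i)` is exceptional. The points `u` with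
`f_n(‖u‖) u / ‖u‖` near a given vector lie in a small ball (`Pool.Agent.R482.ST`).
-/

set_option autoImplicit false

open MeasureTheory

namespace Pool.Agent.Results.MP_f58a57_nt.StarshapedSequences

open Pool.Agent.V8H1.TR (star_near)
open Pool.Agent.Results.MP_f58a57_nt.AlgebraicInvariants (Exceptional Z)
open Pool.Agent.Results.MP_f58a57_nt.MultiplicativeValues (int_mem_Z Z_one_card)

/-- the functions `f n` are positive on `(b, ∞)`, `b ≥ 0`, and `f n x / x` is nondecreasing there -/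
def Starshaped (b : ℝ) (f : ℕ → ℝ → ℝ) : Prop :=
  0 ≤ b ∧ ∀ n : ℕ, ∀ x y : ℝ, b < x → x ≤ y → 0 < f n x ∧ f n x / x ≤ f n y / y

/-- for each `x > b` the exponent of convergence of the sequence `f n x` is at most `τ` -/
def ExpLe (b : ℝ) (f : ℕ → ℝ → ℝ) (τ : ℝ) : Prop :=
  ∀ x : ℝ, b < x → ∀ t : ℝ, τ < t → Summable (fun n : ℕ => (f n x) ^ (-t))

/-- the count of the exceptional integral tuples -/
theorem few (q k d δ : ℕ) : ∃ c : ℝ, 0 < c ∧ ∃ C : ℝ, ∀ (w : Fin q → ℂ) (T : ℕ), 1 ≤ T →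
    (({α : Fin k → ℤ | (∀ i, |α i| ≤ (T : ℤ)) ∧
      α ∈ {α : Fin k → ℤ | Exceptional δ d w (fun i => ((α i : ℤ) : ℂ))}}.ncard : ℕ) : ℝ) ≤
      C * (T : ℝ) ^ ((k : ℝ) - c) := by
  obtain ⟨c, hc, C, hC, h⟩ := AlgebraicInvariants.result q k 1 d δ le_rfl
  refine ⟨c, hc, C * 3 ^ k, fun w T hT => ?_⟩
  obtain ⟨hfin, h2⟩ := h w T hT
  have hT1 : (1 : ℝ) ≤ T := by exact_mod_cast hT
  have hT0 : (0 : ℝ) < T := by linarith
  have hfin2 : {α : Fin k → ℂ | (∀ i, α i ∈ Z 1 T) ∧ Exceptional δ d w α}.Finite :=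
    (Set.Finite.pi' fun _ : Fin k => hfin).subset fun α hα => hα.1
  have h3 : {α : Fin k → ℤ | (∀ i, |α i| ≤ (T : ℤ)) ∧
      α ∈ {α : Fin k → ℤ | Exceptional δ d w (fun i => ((α i : ℤ) : ℂ))}}.ncard ≤
      {α : Fin k → ℂ | (∀ i, α i ∈ Z 1 T) ∧ Exceptional δ d w α}.ncard := by
    refine Set.ncard_le_ncard_of_injOn (fun α i => ((α i : ℤ) : ℂ)) ?_ ?_ hfin2
    · rintro α ⟨h4, h5⟩
      exact ⟨fun i => int_mem_Z (h4 i), h5⟩
    · intro α _ β _ hαβ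
      funext i
      have h6 : ((α i : ℤ) : ℂ) = ((β i : ℤ) : ℂ) := congrFun hαβ i
      exact_mod_cast h6
  have h4 : ((Z 1 T).ncard : ℝ) ≤ 3 * T := by
    have h5 : (((Z 1 T).ncard : ℕ) : ℝ) ≤ ((2 * T + 1 : ℕ) : ℝ) := by exact_mod_cast Z_one_card T
    push_cast at h5
    linarith
  calc (({α : Fin k → ℤ | (∀ i, |α i| ≤ (T : ℤ)) ∧
      α ∈ {α : Fin k → ℤ | Exceptional δ d w (fun i => ((α i : ℤ) : ℂ))}}.ncard : ℕ) : ℝ)
      ≤ (({α : Fin k → ℂ | (∀ i, α i ∈ Z 1 T) ∧ Exceptional δ d w α}.ncard : ℕ) : ℝ) := by exact_mod_cast h3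
    _ ≤ C * (T : ℝ) ^ (-c) * ((Z 1 T).ncard : ℝ) ^ k := h2
    _ ≤ C * (T : ℝ) ^ (-c) * (3 * T) ^ k :=
        mul_le_mul_of_nonneg_left (pow_le_pow_left₀ (Nat.cast_nonneg _) h4 k) (by positivity)
    _ = C * 3 ^ k * (T : ℝ) ^ ((k : ℝ) - c) := by
        rw [mul_pow, sub_eq_neg_add, Real.rpow_add hT0, Real.rpow_natCast]
        ring

theorem main (q k d δ : ℕ) (hk : 1 ≤ k) :
    ∃ η : ℝ, 0 < η ∧ ∀ (w : Fin q → ℂ) (f : ℕ → ℝ → ℝ) (b τ θ : ℝ), Starshaped b f → 0 ≤ τ → ExpLe b f τ → θ < 1 →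
      ∃ S : Set (Fin k → ℝ), dimH S ≤ ENNReal.ofReal (((k : ℝ) - η + τ) / (1 - θ)) ∧
        ∀ u : Fin k → ℝ, b < ‖u‖ → u ∉ S → ∀ c : ℝ, ∃ n₀ : ℕ, ∀ n : ℕ, n₀ ≤ n → ∀ v : Fin k → ℤ,
          (∀ i, |(v i : ℝ) - f n ‖u‖ / ‖u‖ * u i| ≤ c * (f n ‖u‖) ^ θ) →
          ∀ a b : Fin k → ℤ, (∀ i, a i ≠ 0 ∧ |(a i : ℝ)| ≤ ‖v‖ ^ η ∧ |(b i : ℝ)| ≤ ‖v‖ ^ η) →
            ¬ Exceptional δ d w (fun i => (a i : ℂ) * (v i : ℂ) + (b i : ℂ)) := by
  obtain ⟨c, hc, C, h⟩ := few q k d δ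
  obtain ⟨η, hη, hnear⟩ := star_near hk hc
  refine ⟨η, hη, fun w f b τ θ hf hτ hE hθ => ?_⟩
  obtain ⟨S, hS, hS2⟩ := hnear {α : Fin k → ℤ | Exceptional δ d w (fun i => ((α i : ℤ) : ℂ))} C
    (h w) f b τ θ hf hτ hE hθ
  refine ⟨S, hS, fun u hu huS c₁ => ?_⟩
  obtain ⟨n₀, hn⟩ := hS2 u hu huS c₁
  refine ⟨n₀, fun n hn1 v hv a b hab hexc => hn n hn1 v hv a b hab ?_⟩
  simpa only [Set.mem_ofPred_eq, Int.cast_add, Int.cast_mul] using hexc

/-- **Theorem.** Let `k ≥ 1`. (1) For all `q`, `d`, `δ` there is `η > 0` such that for all complex numbers `w_1, …, w_q`, all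
starshaped functions `f` on `(b, ∞)` of exponent of convergence at most `τ ≥ 0` and `θ < 1` there is a set `S` of Hausdorff
dimension at most `(k - η + τ) / (1 - θ)` such that for all `u ∈ ℝ^k` outside `S` with `‖u‖ > b` (maximum norm) and all `c`, for
all large `n`, all integer vectors `v` with `‖v - f_n(‖u‖) u / ‖u‖‖ ≤ c f_n(‖u‖) ^ θ`, and all integers `a_i ≠ 0`, `b_i` with
`|a_i|, |b_i| ≤ ‖v‖ ^ η`, the tuple `(a_i v_i + b_i)` is not exceptional. (2) If `f` has exponent `0`, then for every sequence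
`w` of complex numbers, for almost all `u ∈ ℝ^k` with `‖u‖ > b` this holds for ALL `q`, `d`, `δ` with some `η > 0` for
`w_1, …, w_q`, `θ = 0` and all `c`. (3) The functions `v_n x`, `v_n > 0`, are starshaped on `(0, ∞)`, of exponent `τ` if `v` has
exponent of convergence at most `τ`; the functions `x ^ (v_n)`, `v_n ≥ 1`, are starshaped on `(1, ∞)`, of exponent `0` if the
sums of `exp (-t v_n)` converge for `t > 0`; and the iterates of a map `g` with `g(x) > x` for `x > b` and `g(x) / x`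
nondecreasing are starshaped on `(b, ∞)`, of exponent `0`. -/
theorem result (k : ℕ) (hk : 1 ≤ k) :
    (∀ q d δ : ℕ, ∃ η : ℝ, 0 < η ∧ ∀ (w : Fin q → ℂ) (f : ℕ → ℝ → ℝ) (b τ θ : ℝ),
      Starshaped b f → 0 ≤ τ → ExpLe b f τ → θ < 1 →
      ∃ S : Set (Fin k → ℝ), dimH S ≤ ENNReal.ofReal (((k : ℝ) - η + τ) / (1 - θ)) ∧
        ∀ u : Fin k → ℝ, b < ‖u‖ → u ∉ S → ∀ c : ℝ, ∃ n₀ : ℕ, ∀ n : ℕ, n₀ ≤ n → ∀ v : Fin k → ℤ,
          (∀ i, |(v i : ℝ) - f n ‖u‖ / ‖u‖ * u i| ≤ c * (f n ‖u‖) ^ θ) →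
          ∀ a b : Fin k → ℤ, (∀ i, a i ≠ 0 ∧ |(a i : ℝ)| ≤ ‖v‖ ^ η ∧ |(b i : ℝ)| ≤ ‖v‖ ^ η) →
            ¬ Exceptional δ d w (fun i => (a i : ℂ) * (v i : ℂ) + (b i : ℂ))) ∧
    (∀ (w : ℕ → ℂ) (f : ℕ → ℝ → ℝ) (b : ℝ), Starshaped b f → ExpLe b f 0 →
      ∀ᵐ u : Fin k → ℝ, b < ‖u‖ → ∀ q d δ : ℕ, ∃ η : ℝ, 0 < η ∧ ∀ c : ℝ, ∃ n₀ : ℕ, ∀ n : ℕ, n₀ ≤ n →
        ∀ v : Fin k → ℤ, (∀ i, |(v i : ℝ) - f n ‖u‖ / ‖u‖ * u i| ≤ c) →
          ∀ a b : Fin k → ℤ, (∀ i, a i ≠ 0 ∧ |(a i : ℝ)| ≤ ‖v‖ ^ η ∧ |(b i : ℝ)| ≤ ‖v‖ ^ η) →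
            ¬ Exceptional δ d (fun l : Fin q => w l) (fun i => (a i : ℂ) * (v i : ℂ) + (b i : ℂ))) ∧
    (∀ (v : ℕ → ℝ) (τ : ℝ), (∀ n, 0 < v n) → (∀ t : ℝ, τ < t → Summable (fun n : ℕ => (v n) ^ (-t))) →
      Starshaped 0 (fun n x => v n * x) ∧ ExpLe 0 (fun n x => v n * x) τ) ∧
    (∀ v : ℕ → ℝ, (∀ n, 1 ≤ v n) → (∀ t : ℝ, 0 < t → Summable fun n : ℕ => Real.exp (-(t * v n))) →
      Starshaped 1 (fun n x => x ^ (v n)) ∧ ExpLe 1 (fun n x => x ^ (v n)) 0) ∧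
    (∀ (b : ℝ) (g : ℝ → ℝ), 0 ≤ b → (∀ x y : ℝ, b < x → x ≤ y → g x / x ≤ g y / y) → (∀ x : ℝ, b < x → x < g x) →
      Starshaped b (fun n x => g^[n] x) ∧ ExpLe b (fun n x => g^[n] x) 0) := by
  refine ⟨fun q d δ => main q k d δ hk, fun w f b hf hE => ?_, Pool.Agent.R482.ST.ex_mul, Pool.Agent.R482.ST.ex_pow,
    Pool.Agent.R482.ST.ex_orbit⟩
  have hk0 : (0 : ℝ) < k := by exact_mod_cast hk
  have key : ∀ t : ℕ × ℕ × ℕ, ∀ᵐ u : Fin k → ℝ, b < ‖u‖ → ∃ η : ℝ, 0 < η ∧ ∀ c : ℝ, ∃ n₀ : ℕ, ∀ n : ℕ, n₀ ≤ n →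
        ∀ v : Fin k → ℤ, (∀ i, |(v i : ℝ) - f n ‖u‖ / ‖u‖ * u i| ≤ c) →
          ∀ a b : Fin k → ℤ, (∀ i, a i ≠ 0 ∧ |(a i : ℝ)| ≤ ‖v‖ ^ η ∧ |(b i : ℝ)| ≤ ‖v‖ ^ η) →
            ¬ Exceptional t.2.1 t.2.2 (fun l : Fin t.1 => w l) (fun i => (a i : ℂ) * (v i : ℂ) + (b i : ℂ)) := by
    rintro ⟨q, δ, d⟩
    obtain ⟨η, hη, h⟩ := main q k d δ hk
    obtain ⟨S, hS, hS2⟩ := h (fun l : Fin q => w l) f b 0 0 hf le_rfl hE one_pos
    have h0 : volume S = 0 := by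
      refine Pool.Agent.N251.LF.null_of_dim hS ?_ ?_
      · rw [Fintype.card_fin, sub_zero, div_one, add_zero]
        linarith
      · rw [Fintype.card_fin]
        exact hk
    have h3 : ∀ᵐ u : Fin k → ℝ, u ∉ S := by
      rw [ae_iff]
      simpa using h0
    filter_upwards [h3] with u huS hu
    refine ⟨η, hη, fun c => ?_⟩
    obtain ⟨n₀, hn⟩ := hS2 u hu huS c
    refine ⟨n₀, fun n hn1 v hv => hn n hn1 v fun i => ?_⟩
    rw [Real.rpow_zero, mul_one]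
    exact hv i
  filter_upwards [ae_all_iff.2 key] with u hu hb q d δ
  exact hu (q, δ, d) hb

end Pool.Agent.Results.MP_f58a57_nt.StarshapedSequences
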